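import Pool.Agent.H48.CV.ConvD
import Pool.Agent.H48.CV.StbU
import Pool.Agent.H48.NE.Boot
import Pool.Agent.H48.CV.ThmH
import Pool.Agent.H15.NE0.Near0

/-!
# Bounds on `[0,∞)` without symmetry near data whose solutions are bounded and converge, `γ ≥ 0`

As H48/CV/ThmH (there `γ > 0`); here the time after which the reference solution has to exist may depend on the decay constants `B` of the data. -/

set_option autoImplicit false

open MeasureTheory Set Filter Topology Pool.Agent.H25.Kin Pool.Agent.H48.PL Pool.Agent.H48.PD Pool.Agent.H25.PN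
open Pool.Agent.H82.BK Pool.Agent.H82.CM Pool.Agent.H48.PR Pool.Agent.H93.CM Pool.Agent.H48.NE
open Pool.Agent.H15.AV (Slice sol_slice)
open Pool.Agent.H48.CV

namespace Pool.Agent.H15.NE0

variable {d : ℕ}

/-- pointwise decay from a weighted bound -/
private lemma TH0_le {q : ℕ} {v : Vec d} {a c : ℝ} (ha : 0 ≤ a)
    (h : (1 + ‖v‖) ^ (2 * q) * a ≤ c) : a ≤ ((d : ℝ) + 1) ^ q * |c| * Wp q v := by
  have hn := norm_nonneg v
  have h2 : 1 + nsq v ≤ ((d : ℝ) + 1) * (1 + ‖v‖) ^ 2 := by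
    have h3 := sq_le v
    have h4 : (0 : ℝ) ≤ d := Nat.cast_nonneg _
    nlinarith [mul_nonneg h4 hn]
  have h5 : (1 + nsq v) ^ q ≤ ((d : ℝ) + 1) ^ q * (1 + ‖v‖) ^ (2 * q) := by
    rw [pow_mul, ← mul_pow]
    exact pow_le_pow_left₀ (by have := sq_nonneg' v; linarith) h2 q
  have h6 : 0 < (1 + nsq v) ^ q := by
    have := sq_nonneg' v
    positivity
  rw [Wp, ← div_eq_mul_inv, le_div_iff₀ h6]
  calc a * (1 + nsq v) ^ q ≤ a * (((d : ℝ) + 1) ^ q * (1 + ‖v‖) ^ (2 * q)) :=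
        mul_le_mul_of_nonneg_left h5 ha
    _ = ((d : ℝ) + 1) ^ q * ((1 + ‖v‖) ^ (2 * q) * a) := by ring
    _ ≤ ((d : ℝ) + 1) ^ q * |c| := by
        gcongr
        exact h.trans (le_abs_self c)

/-- the weights are integrable -/
private lemma TH0_Wint {q : ℕ} (hq : d + 1 ≤ 2 * q) : Integrable (Wp q : Vec d → ℝ) := by
  refine Integrable.mono' ((integrable_wt (d := d)).const_mul ((2 : ℝ) ^ q))
    (Wp_cont q).aestronglyMeasurable (Eventually.of_forall fun v => ?_)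
  have hn := norm_nonneg v
  have h1 : (1 + ‖v‖) ^ 2 ≤ 2 * (1 + nsq v) := by
    have := norm_sq_le_sq v
    nlinarith [sq_nonneg (1 - ‖v‖)]
  have h2 : (1 + ‖v‖) ^ (d + 1) ≤ 2 ^ q * (1 + nsq v) ^ q := by
    calc (1 + ‖v‖) ^ (d + 1) ≤ (1 + ‖v‖) ^ (2 * q) := pow_le_pow_right₀ (by linarith) hq
      _ = ((1 + ‖v‖) ^ 2) ^ q := pow_mul _ _ _
      _ ≤ (2 * (1 + nsq v)) ^ q := pow_le_pow_left₀ (by positivity) h1 q
      _ = 2 ^ q * (1 + nsq v) ^ q := mul_pow _ _ _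
  have h3 : 0 < (1 + nsq v) ^ q := by
    have := sq_nonneg' v
    positivity
  rw [Real.norm_of_nonneg (Wp_pos q v).le, Wp, wt, ← div_eq_mul_inv, ← one_div,
    div_le_div_iff₀ h3 (by positivity), one_mul]
  exact h2

/-- slices are integrable -/
private lemma TH0_int {T : ℝ} {Q f : ℝ → Vec d → Vec d → ℝ} (hf : IsClassicalSol T Q f) {t : ℝ}
    (ht : t ∈ Ico 0 T) (x : Vec d) : Integrable (f t x) := by
  obtain ⟨C, hC⟩ := hf.decay t ht.2 (2 * (d + 1))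
  have hc : Continuous (f t x) := by
    have h1 : Continuous fun v : Vec d => ((t, x, v) : ℝ × Vec d × Vec d) := by fun_prop
    exact hf.isCont.comp_continuous h1 fun v => ⟨ht, mem_univ _⟩
  refine Integrable.mono' ((TH0_Wint (d := d) (q := d + 1) (by omega)).const_mul
    (((d : ℝ) + 1) ^ (d + 1) * |C|)) hc.aestronglyMeasurable
    (Eventually.of_forall fun v => ?_)
  have h0 := hf.nonneg t ht x v
  rw [Real.norm_of_nonneg h0]
  exact TH0_le h0 (hC t ⟨ht.1, le_rfl⟩ x v)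

/-- the mass outside a ball is small -/
private lemma TH0_tail {p : ℕ} (hp : d + 10 ≤ p) {A δ : ℝ} (hA : 0 ≤ A) (hδ : 0 < δ) :
    ∃ R : ℝ, ∀ G : Vec d → ℝ, Integrable G → (∀ v, G v ≤ A * Wp p v) →
      (∫ v, G v) - δ ≤ ∫ z in {z : Vec d | nsq z ≤ R ^ 2}, G z := by
  obtain ⟨q, rfl⟩ : ∃ q, p = q + 1 := ⟨p - 1, by omega⟩
  have hi := TH0_Wint (d := d) (q := q) (by omega)
  obtain ⟨I, hI⟩ : ∃ I : ℝ, I = ∫ v : Vec d, Wp q v := ⟨_, rfl⟩
  obtain ⟨R, hR⟩ : ∃ R : ℝ, R = A * I / δ := ⟨_, rfl⟩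
  refine ⟨R, fun G hG hGA => ?_⟩
  have hS : MeasurableSet {z : Vec d | nsq z ≤ R ^ 2} :=
    (isClosed_le continuous_sq continuous_const).measurableSet
  have h1 := integral_add_compl hS hG
  have hR2 : 0 < 1 + R ^ 2 := by positivity
  have h2 : ∫ z in {z : Vec d | nsq z ≤ R ^ 2}ᶜ, G z ≤
      ∫ z in {z : Vec d | nsq z ≤ R ^ 2}ᶜ, A / (1 + R ^ 2) * Wp q z := by
    refine setIntegral_mono_on hG.integrableOn (hi.const_mul _).integrableOn hS.compl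
      fun z hz => (hGA z).trans ?_
    have hz' : R ^ 2 < nsq z := not_le.1 hz
    have h3 : Wp (q + 1) z ≤ Wp q z / (1 + R ^ 2) := by
      have h4 : 0 < 1 + nsq z := by linarith [sq_nonneg R]
      have h5 : Wp (q + 1) z = Wp q z / (1 + nsq z) := by
        unfold Wp
        rw [pow_succ, mul_inv, div_eq_mul_inv]
      rw [h5]
      exact div_le_div_of_nonneg_left (Wp_pos q z).le hR2 (by linarith)
    calc A * Wp (q + 1) z ≤ A * (Wp q z / (1 + R ^ 2)) := mul_le_mul_of_nonneg_left h3 hA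
      _ = A / (1 + R ^ 2) * Wp q z := by ring
  have h3 : ∫ z in {z : Vec d | nsq z ≤ R ^ 2}ᶜ, A / (1 + R ^ 2) * Wp q z ≤
      ∫ z : Vec d, A / (1 + R ^ 2) * Wp q z :=
    setIntegral_le_integral (hi.const_mul _) (Eventually.of_forall fun z =>
      mul_nonneg (div_nonneg hA hR2.le) (Wp_pos q z).le)
  have e3 : ∫ z : Vec d, A / (1 + R ^ 2) * Wp q z = A / (1 + R ^ 2) * I := by
    rw [integral_const_mul, hI]
  rw [e3] at h3
  have h4 : A / (1 + R ^ 2) * I ≤ δ := by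
    rw [div_mul_eq_mul_div, div_le_iff₀ hR2]
    have h5 : A * I = δ * R := by
      rw [hR]
      field_simp
    rw [h5]
    refine mul_le_mul_of_nonneg_left ?_ hδ.le
    nlinarith [sq_nonneg (R - 1)]
  linarith

theorem thmG_gen0 {s γ : ℝ} (hd : 2 ≤ d) (hs : 0 < s) (h0 : 0 ≤ γ) (hs2 : 2 * s < 1)
    (h2 : γ + 2 * s ≤ 2) {b : ℝ → ℝ} (hb : IsKernel d s b) {ν : Vec d} {F₀ : Vec d → Vec d → ℝ}
    (hF : PlaneData s ν F₀) {P : ℝ → (ℝ → Vec d → Vec d → ℝ) → Prop} (hU : UB d γ b P F₀)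
    {a k : ℝ} {u₀ : Vec d} (ha : 0 < a) (hk : 0 < k)
    (hconv : ∀ (p : ℕ) (η : ℝ), 0 < η → ∃ L : ℝ,
      ∀ (T : ℝ) (f : ℝ → Vec d → Vec d → ℝ), IsBoltzmannSol γ b T f → P T f → f 0 = F₀ →
        ∀ t ∈ Ico L T, ∀ x v, |f t x v - mx a k u₀ v| ≤ η * Wp p v) {η : ℝ} (hη : 0 < η) (B : ℕ → ℝ) :
    ∃ Ts : ℝ, ∀ T₁ > Ts, ∀ g : ℝ → Vec d → Vec d → ℝ,
      IsBoltzmannSol γ b T₁ g → g 0 = F₀ → ∃ ε > 0, ∃ m₀ > 0, ∃ (M₀ : ℝ) (U : ℕ → ℝ),
      ∀ (T : ℝ) (f : ℝ → Vec d → Vec d → ℝ), IsBoltzmannSol γ b T f →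
        (∀ (N : ℕ) (x v : Vec d), (1 + ‖v‖) ^ N * f 0 x v ≤ B N) → (∀ x v, |f 0 x v - F₀ x v| ≤ ε) →
        ∀ t ∈ Ico 0 T, ∀ x, HydroBounds m₀ M₀ M₀ M₀ (f t x) ∧
          (∀ (N : ℕ) (v : Vec d), (1 + ‖v‖) ^ N * f t x v ≤ U N) ∧
          (t < T₁ → ∀ v, |f t x v - g t x v| ≤ η) ∧ (Ts ≤ t → ∀ v, |f t x v - mx a k u₀ v| ≤ η) := by
  obtain ⟨U₀, m₁, hm₁, hU₀⟩ := hU
  obtain ⟨p, hp⟩ : ∃ p : ℕ, p = d + 10 := ⟨_, rfl⟩
  have hp' : d + 10 ≤ p := hp.ge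
  obtain ⟨A₀, hA₀⟩ : ∃ A₀ : ℝ, A₀ = ((d : ℝ) + 1) ^ p * |U₀ (2 * p)| := ⟨_, rfl⟩
  have hA₀0 : 0 ≤ A₀ := by rw [hA₀]; positivity
  obtain ⟨R₁, hR₁⟩ := TH0_tail hp' hA₀0 (by linarith : 0 < m₁ / 4)
  obtain ⟨I, hI⟩ : ∃ I : ℝ, I = ∫ v : Vec d, Wp p v := ⟨_, rfl⟩
  have hI0 : 0 ≤ I := by rw [hI]; exact integral_nonneg fun z => (Wp_pos p z).le
  have hWi : Integrable (Wp p : Vec d → ℝ) := TH0_Wint (by omega)
  obtain ⟨U₁, hU₁⟩ := prop0 hd ⟨hs, by linarith⟩ h0 h2 hb hp' (A₀ + 1) R₁ (half_pos hm₁) B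
  obtain ⟨ε', hε', U', m', hm', hnear⟩ := near_eq20 hd hs h0 hs2 h2 hb ha hk u₀ U₁ (half_pos hη)
  obtain ⟨L, hL⟩ := hconv p (min (ε' / 2) (η / 2)) (lt_min (half_pos hε') (half_pos hη))
  obtain ⟨T₀, hT₀⟩ : ∃ T₀ : ℝ, T₀ = max L 2 := ⟨_, rfl⟩
  have hT₀L : L ≤ T₀ := by rw [hT₀]; exact le_max_left _ _
  have hT₀2 : 2 ≤ T₀ := by rw [hT₀]; exact le_max_right _ _
  refine ⟨T₀, fun T₁ hT₁ g hg hg0 => ?_⟩
  have hPD : PlaneData s ν (g 0) := by rw [hg0]; exact hF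
  obtain ⟨hsym, hUg⟩ := hU₀ T₁ g hg hg0
  obtain ⟨η₁, hη₁, hη₁1, hη₁I⟩ : ∃ η₁ : ℝ, 0 < η₁ ∧ η₁ ≤ 1 ∧ η₁ * I ≤ m₁ / 4 := by
    refine ⟨min 1 (m₁ / 4 / (I + 1)), lt_min one_pos (by positivity), min_le_left _ _, ?_⟩
    calc min 1 (m₁ / 4 / (I + 1)) * I ≤ m₁ / 4 / (I + 1) * I :=
          mul_le_mul_of_nonneg_right (min_le_right _ _) hI0
      _ = m₁ / 4 * (I / (I + 1)) := by ring
      _ ≤ m₁ / 4 * 1 := mul_le_mul_of_nonneg_left ((div_le_one (by linarith)).2 (by linarith))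
          (by linarith)
      _ = m₁ / 4 := mul_one _
  obtain ⟨T₂, hT₂⟩ : ∃ T₂ : ℝ, T₂ = (T₀ + T₁) / 2 := ⟨_, rfl⟩
  have hT₂a : T₀ < T₂ := by rw [hT₂]; linarith
  have hT₂b : T₂ < T₁ := by rw [hT₂]; linarith
  obtain ⟨η₂, hη₂, hη₂a, hη₂b, hη₂c⟩ : ∃ η₂ : ℝ, 0 < η₂ ∧ η₂ ≤ η₁ ∧ η₂ ≤ ε' / 2 ∧ η₂ ≤ η / 2 :=
    ⟨min η₁ (min (ε' / 2) (η / 2)), lt_min hη₁ (lt_min (half_pos hε') (half_pos hη)), min_le_left _ _,
      (min_le_right _ _).trans (min_le_left _ _), (min_le_right _ _).trans (min_le_right _ _)⟩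
  obtain ⟨ε, hε, U₂, hst⟩ := stab_closeU hd hs h0 hs2 h2 hb hT₂b hg hPD hm₁
    (fun t ht x => (hUg t ht x).2) B hp' hη₂
  obtain ⟨M₀, hM₀⟩ := Pool.Agent.H48.PI.hydro_of_U d (fun N => max (U₂ N) (U' N))
  refine ⟨ε, hε, min (m₁ / 2) m', lt_min (half_pos hm₁) hm', M₀, fun N => max (U₂ N) (U' N),
    fun T f hf hfB hfε => ?_⟩
  have hf' : IsClassicalSol T (fun t x => boltzQ γ b (f t x)) f := hf
  have hg' : IsClassicalSol T₁ (fun t x => boltzQ γ b (g t x)) g := hg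
  -- closeness on the first part
  have hA := hst (min T T₂) (min_le_right _ _) f
    (Pool.Agent.H48.PI.sol_restrict hf' (min_le_left _ _)) hfB (by rw [hg0]; exact hfε)
  have hgL : ∀ τ ∈ Ico T₀ T₁, ∀ y w, |g τ y w - mx a k u₀ w| ≤ min (ε' / 2) (η / 2) := by
    intro τ hτ y w
    refine (hL T₁ g hg hsym hg0 τ ⟨hT₀L.trans hτ.1, hτ.2⟩ y w).trans ?_
    exact mul_le_of_le_one_right (le_min (half_pos hε').le (half_pos hη).le) (Wp_le_one p w)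
  have hW1 : ∀ (q : ℕ) (c : ℝ) (w : Vec d), 0 ≤ c → c * Wp q w ≤ c := fun q c w hc =>
    mul_le_of_le_one_right hc (Wp_le_one q w)
  -- decay, mass and closeness on the whole interval
  have key : ∀ t ∈ Ico 0 T, ∀ x, (∀ (N : ℕ) (v : Vec d), (1 + ‖v‖) ^ N * f t x v ≤
      max (U₂ N) (U' N)) ∧ min (m₁ / 2) m' ≤ ∫ v, f t x v ∧
      (t < T₁ → ∀ v, |f t x v - g t x v| ≤ η) ∧ (T₀ ≤ t → ∀ v, |f t x v - mx a k u₀ v| ≤ η) := by
    intro t ht x
    rcases lt_or_ge t T₂ with htT | htT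
    · obtain ⟨j1, j2, j3⟩ := hA t ⟨ht.1, lt_min ht.2 htT⟩ x
      refine ⟨fun N v => (j1 N v).trans (le_max_left _ _), (min_le_left _ _).trans j2,
        fun _ v => ?_, fun h v => ?_⟩
      · have j4 := (j3 v).trans (hW1 p η₂ v hη₂.le)
        linarith
      · have j4 := (j3 v).trans (hW1 p η₂ v hη₂.le)
        have j5 := (hgL t ⟨h, htT.trans hT₂b⟩ x v).trans (min_le_right _ _)
        have j6 := abs_sub_le (f t x v) (g t x v) (mx a k u₀ v)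
        linarith
    · have hT2T : T₂ ≤ T := htT.trans ht.2.le
      have hTT : min T T₂ = T₂ := min_eq_right hT2T
      rw [hTT] at hA
      have hfr : IsClassicalSol T₂ (fun t x => boltzQ γ b (f t x)) f :=
        Pool.Agent.H48.PI.sol_restrict hf' hT2T
      have hclose : ∀ τ ∈ Ico 0 T₂, ∀ y w, |f τ y w - g τ y w| ≤ η₂ * Wp p w :=
        fun τ hτ y w => (hA τ hτ y).2.2 w
      have hgA : ∀ τ ∈ Ico 0 T₁, ∀ y w, g τ y w ≤ A₀ * Wp p w := by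
        intro τ hτ y w
        rw [hA₀]
        exact TH0_le (hg'.nonneg τ hτ y w) ((hUg τ hτ y).1 (2 * p) w)
      have hsub : ∀ τ ∈ Ico 0 T₂, τ ∈ Ico 0 T₁ := fun τ hτ => ⟨hτ.1, hτ.2.trans hT₂b⟩
      have hfA : ∀ τ ∈ Ico 0 T₂, ∀ y w, f τ y w ≤ (A₀ + 1) * Wp p w := by
        intro τ hτ y w
        have j1 := (abs_le.1 (hclose τ hτ y w)).2
        have j2 := hgA τ (hsub τ hτ) y w
        have j3 : η₂ * Wp p w ≤ 1 * Wp p w :=
          mul_le_mul_of_nonneg_right (hη₂a.trans hη₁1) (Wp_pos p w).le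
        linarith
      have hfm : ∀ τ ∈ Ico 0 T₂, ∀ y,
          m₁ / 2 ≤ ∫ z in {z : Vec d | nsq z ≤ R₁ ^ 2}, f τ y z := by
        intro τ hτ y
        have ig := TH0_int hg' (hsub τ hτ) y
        have if' := TH0_int hfr hτ y
        have j1 := hR₁ (g τ y) ig (hgA τ (hsub τ hτ) y)
        have j2 : m₁ ≤ ∫ v, g τ y v := (hUg τ (hsub τ hτ) y).2
        have j3 : (∫ z in {z : Vec d | nsq z ≤ R₁ ^ 2}, g τ y z) -
            (∫ z in {z : Vec d | nsq z ≤ R₁ ^ 2}, η₁ * Wp p z) ≤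
            ∫ z in {z : Vec d | nsq z ≤ R₁ ^ 2}, f τ y z := by
          rw [← integral_sub ig.integrableOn (hWi.const_mul η₁).integrableOn]
          refine integral_mono (ig.integrableOn.sub (hWi.const_mul η₁).integrableOn)
            if'.integrableOn fun z => ?_
          have j4 := (abs_le.1 (hclose τ hτ y z)).1
          have j5 : η₂ * Wp p z ≤ η₁ * Wp p z :=
            mul_le_mul_of_nonneg_right hη₂a (Wp_pos p z).le
          show g τ y z - η₁ * Wp p z ≤ f τ y z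
          linarith
        have j6 : ∫ z in {z : Vec d | nsq z ≤ R₁ ^ 2}, η₁ * Wp p z ≤ η₁ * I := by
          rw [hI, ← integral_const_mul]
          exact setIntegral_le_integral (hWi.const_mul η₁) (Eventually.of_forall fun z =>
            mul_nonneg hη₁.le (Wp_pos p z).le)
        linarith
      have hdT := hU₁ T₂ f hfr hfB hfA hfm T₀ ⟨by linarith, hT₂a⟩
      have hT₀0 : 0 ≤ T₀ := by linarith
      have hdist : ∀ y w, |f T₀ y w - mx a k u₀ w| ≤ ε' := by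
        intro y w
        have j1 := (hclose T₀ ⟨hT₀0, hT₂a⟩ y w).trans (hW1 p η₂ w hη₂.le)
        have j2 := (hgL T₀ ⟨le_rfl, hT₁⟩ y w).trans (min_le_left _ _)
        have j5 := abs_sub_le (f T₀ y w) (g T₀ y w) (mx a k u₀ w)
        linarith
      have hsh := Pool.Agent.H48.PI.boltz_shift hf hT₀0
      have hn := hnear (T - T₀) (fun τ => f (T₀ + τ)) hsh
        (fun N y w => by simpa using hdT N y w) (fun y w => by simpa using hdist y w)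
        (t - T₀) ⟨by linarith, by linarith [ht.2]⟩ x
      have e1 : T₀ + (t - T₀) = t := by ring
      simp only [e1] at hn
      have hn3 : ∀ v, |f t x v - mx a k u₀ v| ≤ η / 2 := fun v =>
        (hn.2.2 v).trans (hW1 (d + 11) (η / 2) v (half_pos hη).le)
      refine ⟨fun N v => (hn.1 N v).trans (le_max_right _ _), (min_le_right _ _).trans hn.2.1,
        fun h v => ?_, fun _ v => ?_⟩
      · have j4 := hn3 v
        have j5 := (hgL t ⟨hT₂a.le.trans htT, h⟩ x v).trans (min_le_right _ _)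
        have j6 := abs_sub_le (f t x v) (mx a k u₀ v) (g t x v)
        rw [abs_sub_comm (mx a k u₀ v) (g t x v)] at j6
        linarith
      · have j4 := hn3 v
        linarith
  intro t ht x
  obtain ⟨g1, g2, g3⟩ := hM₀ T _ f hf' (fun N τ hτ y w => (key τ hτ y).1 N w) t ht x
  exact ⟨⟨(key t ht x).2.1, g1, g2, g3⟩, (key t ht x).1, (key t ht x).2.2⟩

end Pool.Agent.H15.NE0
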