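import Pool.Agent.H48.CV.FinG
import Pool.Agent.H15.NE0.ThmH0

/-!
# THEOREM G for `γ ≥ 0`

As H48/CV/AllG, FinG (there `γ > 0`); for `γ = 0` the time `Ts` may depend on the decay constants of the data.
-/

set_option autoImplicit false

open MeasureTheory Set Filter Topology Pool.Agent.H25.Kin Pool.Agent.H48.PL Pool.Agent.H48.PD Pool.Agent.H25.PN
open Pool.Agent.H82.BK Pool.Agent.H82.CM Pool.Agent.H48.PR Pool.Agent.H93.CM Pool.Agent.H48.NE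
open Pool.Agent.H15.AV (Slice sol_slice)
open Pool.Agent.H48.CV

namespace Pool.Agent.H15.NE0

variable {d : ℕ} {s γ : ℝ} {b : ℝ → ℝ}

/-- THEOREM G for all data with time independent bounds of the solutions, `γ ≥ 0` -/
theorem glob0 (hd : 2 ≤ d) (hs : 0 < s) (h0 : 0 ≤ γ) (hs1 : 2 * s < 1) (h2 : γ + 2 * s < 2)
    (hb : IsKernel d s b) {ν : Vec d} (hν : ν ≠ 0) {F₀ : Vec d → Vec d → ℝ} (hF : PlaneData s ν F₀)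
    (hS : Slice F₀) (hU : UB d γ b (PlaneSym ν) F₀) :
    ∃ (a k : ℝ) (u : Vec d), EqM a k u F₀ ∧
      (∀ (p : ℕ) (η : ℝ), 0 < η → ∃ L : ℝ, ∀ (T : ℝ) (f : ℝ → Vec d → Vec d → ℝ),
        IsBoltzmannSol γ b T f → f 0 = F₀ → ∀ t ∈ Ico L T, ∀ x v, |f t x v - mx a k u v| ≤ η * Wp p v) ∧
      ∀ η > 0, ∃ Ts : (ℕ → ℝ) → ℝ, (0 < γ → ∀ B B' : ℕ → ℝ, Ts B = Ts B') ∧ ∀ B : ℕ → ℝ,
        ∀ T₁ > Ts B, ∀ g : ℝ → Vec d → Vec d → ℝ,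
        IsBoltzmannSol γ b T₁ g → g 0 = F₀ → ∃ ε > 0, ∃ m₀ > 0, ∃ (M₀ : ℝ) (U : ℕ → ℝ),
        ∀ (T : ℝ) (f : ℝ → Vec d → Vec d → ℝ), IsBoltzmannSol γ b T f →
          (∀ (N : ℕ) (x v : Vec d), (1 + ‖v‖) ^ N * f 0 x v ≤ B N) → (∀ x v, |f 0 x v - F₀ x v| ≤ ε) →
          ∀ t ∈ Ico 0 T, ∀ x, HydroBounds m₀ M₀ M₀ M₀ (f t x) ∧
            (∀ (N : ℕ) (v : Vec d), (1 + ‖v‖) ^ N * f t x v ≤ U N) ∧
            (t < T₁ → ∀ v, |f t x v - g t x v| ≤ η) ∧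
            (Ts B ≤ t → ∀ v, |f t x v - mx a k u v| ≤ η) := by
  have hUP : UBP d γ b (PlaneSym ν) F₀ := by
    obtain ⟨U, m₀, hm₀, h⟩ := hU
    exact ⟨U, m₀, hm₀, fun T f hf _ hf0 => (h T f hf hf0).2⟩
  obtain ⟨a, k, u, hE, hc⟩ := conv_dirG hd hs h0 hs1 h2.le (blocks hd hs h0 hs1 h2) hb hν hS
    hF.2.1 hF.1 hUP
  refine ⟨a, k, u, hE, fun p η hη => ?_, fun η hη => ?_⟩
  · obtain ⟨L, hL⟩ := hc p η hη
    obtain ⟨U, m₀, hm₀, h⟩ := hU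
    exact ⟨L, fun T f hf hf0 => hL T f hf (h T f hf hf0).1 hf0⟩
  · rcases h0.lt_or_eq with hγ | hγ
    · obtain ⟨Ts, hTs⟩ := thmG_gen hd hs hγ hs1 h2.le hb hF hU hE.ha hE.hk hc hη
      exact ⟨fun _ => Ts, fun _ _ _ => rfl, fun B T₁ hT g hg hg0 => hTs T₁ hT g hg hg0 B⟩
    · have hex : ∀ B : ℕ → ℝ, _ := fun B =>
        thmG_gen0 hd hs h0 hs1 h2.le hb hF hU hE.ha hE.hk hc hη B
      choose Ts hTs using hex
      exact ⟨Ts, fun h => absurd hγ h.ne, fun B T₁ hT g hg hg0 => hTs B T₁ hT g hg hg0⟩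

end Pool.Agent.H15.NE0
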